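import Pool.Agent.N676.OR.Pro

/-!
# Primes of a given set which divide the value of a polynomial exactly once (helper32)

`Hit P a`: some prime of `P` divides `a` exactly once. For linear forms `a = λ(c)` the set of the `c`
without `Hit P a` is pronull if the sum of the reciprocals of the primes of `P` diverges (helper676).
Here the same is proved for the values `a = F(c)` of all polynomials `F = (A x_l + B) G` where `A`, `B`
do not contain the variable `x_l` and `G` does not vanish identically on the hypersurface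
`x_l = - B / A`.
-/

set_option autoImplicit false
set_option linter.unusedSectionVars false

namespace Pool.Agent.P8H32.CV

open Finset MvPolynomial Pool.Agent.N24.RW Pool.Agent.N676.OR

section

variable {ι : Type}

lemma aeval_free {R : Type} [CommRing R] {l : ι} {N : MvPolynomial ι ℤ} (h : l ∉ N.vars)
    {c c' : ι → R} (hc : ∀ i, i ≠ l → c i = c' i) :
    aeval c N = aeval c' N := by
  unfold aeval
  exact eval₂Hom_congr' rfl (fun i hi _ => hc i fun h' => h (h' ▸ hi)) rfl

lemma aeval_int {R : Type} [CommRing R] (c : ι → ℤ) (F : MvPolynomial ι ℤ) :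
    aeval (fun i => (c i : R)) F = ((eval c F : ℤ) : R) := by
  have h := MvPolynomial.eval₂_comp (Int.castRingHom R) c F
  rw [aeval_def]
  exact h.symm

lemma free_mem {l : ι} {N : MvPolynomial ι ℤ} :
    l ∉ N.vars ↔ N ∈ supported ℤ ({l}ᶜ : Set ι) := by
  rw [mem_supported]
  constructor
  · intro h i hi hil
    rw [Set.mem_singleton_iff] at hil
    subst hil
    exact h hi
  · intro h hl
    exact h hl rfl

/-- elimination of the variable `l` by means of `A x_l + B` -/
lemma exists_elim {l : ι} {A B : MvPolynomial ι ℤ} (hA : l ∉ A.vars) (hB : l ∉ B.vars)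
    (G : MvPolynomial ι ℤ) : ∃ (e : ℕ) (N : MvPolynomial ι ℤ), l ∉ N.vars ∧
      (A * X l + B) ∣ (A ^ e * G - N) := by
  classical
  rw [free_mem] at hA hB
  induction G using MvPolynomial.induction_on with
  | C a =>
    refine ⟨0, C a, ?_, ?_⟩
    · rw [free_mem]
      exact (supported ℤ ({l}ᶜ : Set ι)).algebraMap_mem a
    · rw [pow_zero, one_mul, sub_self]
      exact dvd_zero _
  | add p q hp hq =>
    obtain ⟨e, N, h1, K, h2⟩ := hp
    obtain ⟨e', N', h1', K', h2'⟩ := hq
    rw [free_mem] at h1 h1'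
    refine ⟨e + e', A ^ e' * N + A ^ e * N', ?_, A ^ e' * K + A ^ e * K', ?_⟩
    · rw [free_mem]
      exact Subalgebra.add_mem _ (Subalgebra.mul_mem _ (Subalgebra.pow_mem _ hA _) h1)
        (Subalgebra.mul_mem _ (Subalgebra.pow_mem _ hA _) h1')
    · have e1 : A ^ (e + e') * (p + q) - (A ^ e' * N + A ^ e * N') =
          A ^ e' * (A ^ e * p - N) + A ^ e * (A ^ e' * q - N') := by ring
      rw [e1, h2, h2']
      ring
  | mul_X p i hp =>
    obtain ⟨e, N, h1, K, h2⟩ := hp
    rw [free_mem] at h1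
    by_cases hi : i = l
    · subst hi
      refine ⟨e + 1, - (B * N), ?_, A * X i * K + N, ?_⟩
      · rw [free_mem]
        exact Subalgebra.neg_mem _ (Subalgebra.mul_mem _ hB h1)
      · have e1 : A ^ (e + 1) * (p * X i) - -(B * N) =
            A * X i * (A ^ e * p - N) + (A * X i + B) * N := by ring
        rw [e1, h2]
        ring
    · refine ⟨e, N * X i, ?_, K * X i, ?_⟩
      · rw [free_mem]
        refine Subalgebra.mul_mem _ h1 ?_
        rw [supported_eq_adjoin_X]
        exact Algebra.subset_adjoin ⟨i, hi, rfl⟩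
      · have e1 : A ^ e * (p * X i) - N * X i = (A ^ e * p - N) * X i := by ring
        rw [e1, h2]
        ring

variable [Fintype ι]

lemma card_fin_pi (q : ℕ) [NeZero q] : Nat.card (ι → ZMod q) = q ^ Fintype.card ι :=
  Clo.card_pi q

/-- at least half of the vectors modulo `p ^ 2` are not zeros of `R` modulo `p` -/
lemma half_nonzero {p : ℕ} (hp : p.Prime) {R : MvPolynomial ι ℤ}
    (hR : R.map (Int.castRingHom (ZMod p)) ≠ 0) (hdeg : 2 * R.totalDegree ≤ p) :
    (p : ℝ) ^ (2 * Fintype.card ι) / 2 ≤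
      (({c : ι → ZMod (p ^ 2) | ¬ p ∣ (aeval c R).val} : Set (ι → ZMod (p ^ 2))).ncard : ℝ) := by
  classical
  have : Fact p.Prime := ⟨hp⟩
  have : NeZero (p ^ 2) := ⟨by have := hp.pos; positivity⟩
  have hdvd : p ∣ p ^ 2 := ⟨p, sq p⟩
  set Z : Set (ι → ZMod p) := {ρ | eval ρ (R.map (Int.castRingHom (ZMod p))) = 0} with hZ
  have h1 := Clo.zeros R p hR
  have h2 := Clo.ncard_preimage (Clo.redu (ι := ι) hdvd) (Clo.redu_surj hdvd) Z
  rw [Clo.card_pi, Clo.card_pi] at h2
  have h3 : ({c : ι → ZMod (p ^ 2) | ¬ p ∣ (aeval c R).val} : Set (ι → ZMod (p ^ 2))) =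
      ((Clo.redu (ι := ι) hdvd) ⁻¹' Z)ᶜ := by
    ext c
    have h4 : ZMod.castHom hdvd (ZMod p) (aeval c R) =
        eval (Clo.redu (ι := ι) hdvd c) (R.map (Int.castRingHom (ZMod p))) := by
      rw [MvPolynomial.eval_map, aeval_def]
      have h5 := MvPolynomial.eval₂_comp_left (ZMod.castHom hdvd (ZMod p))
        (algebraMap ℤ (ZMod (p ^ 2))) c R
      rw [h5]
      congr 1
      exact RingHom.ext_int _ _
    have h6 : p ∣ (aeval c R).val ↔ ZMod.castHom hdvd (ZMod p) (aeval c R) = 0 := by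
      rw [ZMod.castHom_apply, ZMod.cast_eq_val, ZMod.natCast_eq_zero_iff]
    simp only [Set.mem_ofPred_eq, Set.mem_compl_iff, Set.mem_preimage]
    rw [h6, h4]
    rfl
  have h7 : ((Clo.redu (ι := ι) hdvd) ⁻¹' Z).ncard + (((Clo.redu (ι := ι) hdvd) ⁻¹' Z)ᶜ).ncard =
      (p ^ 2) ^ Fintype.card ι := by
    rw [Set.ncard_add_ncard_compl _ (Set.toFinite _), Clo.card_pi]
  rw [h3]
  have hp0 : (0 : ℝ) < p := by exact_mod_cast hp.pos
  have h1' : (Z.ncard : ℝ) * p ≤ R.totalDegree * (p : ℝ) ^ Fintype.card ι := by exact_mod_cast h1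
  have h2' : ((((Clo.redu (ι := ι) hdvd) ⁻¹' Z).ncard : ℕ) : ℝ) * (p : ℝ) ^ Fintype.card ι =
      Z.ncard * ((p : ℝ) ^ 2) ^ Fintype.card ι := by exact_mod_cast h2
  have h7' : ((((Clo.redu (ι := ι) hdvd) ⁻¹' Z).ncard : ℕ) : ℝ) +
      (((((Clo.redu (ι := ι) hdvd) ⁻¹' Z)ᶜ).ncard : ℕ) : ℝ) = ((p : ℝ) ^ 2) ^ Fintype.card ι := by
    exact_mod_cast h7
  have hd' : 2 * (R.totalDegree : ℝ) ≤ p := by exact_mod_cast hdeg
  set u : ℝ := ((((Clo.redu (ι := ι) hdvd) ⁻¹' Z).ncard : ℕ) : ℝ) with hu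
  set v : ℝ := (((((Clo.redu (ι := ι) hdvd) ⁻¹' Z)ᶜ).ncard : ℕ) : ℝ) with hv
  set s : ℝ := (p : ℝ) ^ Fintype.card ι with hs
  have hs0 : 0 < s := by positivity
  have e1 : ((p : ℝ) ^ 2) ^ Fintype.card ι = s * s := by
    rw [hs, ← pow_mul, mul_comm 2, pow_mul, sq]
  have e2 : (p : ℝ) ^ (2 * Fintype.card ι) = s * s := by rw [pow_mul, e1]
  rw [e1] at h2' h7'
  rw [e2]
  have h8 : u = Z.ncard * s := by
    have : u * s = (Z.ncard * s) * s := by rw [h2']; ring
    exact mul_right_cancel₀ hs0.ne' this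
  have h9 : (Z.ncard : ℝ) * p ≤ (p / 2) * s := h1'.trans (by nlinarith)
  have h10 : (Z.ncard : ℝ) ≤ s / 2 := by
    by_contra hc
    push Not at hc
    nlinarith
  nlinarith

/-- The residue classes modulo `p ^ 2` at which `A x_l + B` is divisible exactly once by `p` and `R` is
not divisible by `p`. -/
def Om (l : ι) (A B R : MvPolynomial ι ℤ) (p : ℕ) : Set (ι → ZMod (p ^ 2)) :=
  {c | aeval c (A * X l + B) ∈ exac p ∧ ¬ p ∣ (aeval c R).val}

lemma val_dvd {p : ℕ} (hp : p.Prime) (a : ZMod (p ^ 2)) :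
    p ∣ a.val ↔ ZMod.castHom (⟨p, sq p⟩ : p ∣ p ^ 2) (ZMod p) a = 0 := by
  have : NeZero (p ^ 2) := ⟨by have := hp.pos; positivity⟩
  rw [ZMod.castHom_apply, ZMod.cast_eq_val, ZMod.natCast_eq_zero_iff]

lemma unit_of {p : ℕ} (hp : p.Prime) {a : ZMod (p ^ 2)} (ha : ¬ p ∣ a.val) : IsUnit a := by
  have : NeZero (p ^ 2) := ⟨by have := hp.pos; positivity⟩
  rw [← ZMod.natCast_zmod_val a, ZMod.isUnit_iff_coprime]
  exact Nat.Coprime.pow_right 2 ((Nat.coprime_comm.1 ((Nat.Prime.coprime_iff_not_dvd hp).2 ha)))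

lemma card_Om {l : ι} {A B N : MvPolynomial ι ℤ} (hA : l ∉ A.vars) (hB : l ∉ B.vars)
    (hN : l ∉ N.vars) {p : ℕ} (hp : p.Prime) :
    (exac p).ncard * ({c : ι → ZMod (p ^ 2) | ¬ p ∣ (aeval c (A * N)).val} :
      Set (ι → ZMod (p ^ 2))).ncard ≤ p ^ 2 * (Om l A B (A * N) p).ncard := by
  classical
  have : NeZero (p ^ 2) := ⟨by have := hp.pos; positivity⟩
  have hAN : l ∉ (A * N).vars := by
    rw [free_mem] at *
    exact Subalgebra.mul_mem _ hA hN
  set E : Set (ι → ZMod (p ^ 2)) := {c | ¬ p ∣ (aeval c (A * N)).val} with hE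
  have hun : ∀ c ∈ E, IsUnit (aeval c A : ZMod (p ^ 2)) := by
    intro c hc
    refine unit_of hp fun h => hc ?_
    rw [val_dvd hp] at h ⊢
    rw [map_mul, map_mul, h, zero_mul]
  -- the map
  set φ : ZMod (p ^ 2) × (ι → ZMod (p ^ 2)) → ZMod (p ^ 2) × (ι → ZMod (p ^ 2)) := fun x =>
    (x.2 l, Function.update x.2 l ((x.1 - aeval x.2 B) * (aeval x.2 A : ZMod (p ^ 2))⁻¹)) with hφ
  have hupd : ∀ (M : MvPolynomial ι ℤ), l ∉ M.vars → ∀ (c : ι → ZMod (p ^ 2)) (t : ZMod (p ^ 2)),
      aeval (Function.update c l t) M = aeval c M := by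
    intro M hM c t
    exact aeval_free hM fun i hi => Function.update_of_ne hi _ _
  have hval : ∀ x : ZMod (p ^ 2) × (ι → ZMod (p ^ 2)), x.2 ∈ E →
      aeval (φ x).2 (A * X l + B) = x.1 := by
    intro x hx
    have hu := hun _ hx
    rw [hφ]
    simp only
    rw [map_add, map_mul, aeval_X, hupd A hA, hupd B hB, Function.update_self]
    rw [mul_comm (x.1 - aeval x.2 B), ← mul_assoc, ZMod.mul_inv_of_unit _ hu]
    ring
  have h1 : ((exac p) ×ˢ E).ncard ≤ ((Set.univ : Set (ZMod (p ^ 2))) ×ˢ (Om l A B (A * N) p)).ncard := by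
    refine Set.ncard_le_ncard_of_injOn φ ?_ ?_ (Set.toFinite _)
    · rintro x ⟨hx1, hx2⟩
      refine ⟨Set.mem_univ _, ?_, ?_⟩
      · rw [hval x hx2]
        exact hx1
      · have e : aeval (φ x).2 (A * N) = aeval x.2 (A * N) := hupd _ hAN _ _
        rw [e]
        exact hx2
    · rintro x ⟨hx1, hx2⟩ y ⟨hy1, hy2⟩ hxy
      have e1 : x.1 = y.1 := by rw [← hval x hx2, ← hval y hy2, hxy]
      have e2 : x.2 = y.2 := by
        funext i
        by_cases hi : i = l
        · subst hi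
          exact congrArg Prod.fst hxy
        · have h3 := congrFun (congrArg Prod.snd hxy) i
          simp only [hφ, Function.update_of_ne hi] at h3
          exact h3
      exact Prod.ext e1 e2
  rw [Set.ncard_prod, Set.ncard_prod, Set.ncard_univ, Nat.card_eq_fintype_card, ZMod.card] at h1
  exact h1

/-- **The local criterion for the values of a polynomial with a factor of degree one in one of the
variables.** -/
theorem pro_hit_fac {P : Set ℕ} (hP : Big P) {l : ι} {A B G : MvPolynomial ι ℤ}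
    (hA : l ∉ A.vars) (hB : l ∉ B.vars) {x : ι → ℚ} (hx1 : aeval x A ≠ 0)
    (hx2 : aeval x (A * X l + B) = 0) (hx3 : aeval x G ≠ 0) :
    ProNull {c : ι → ℤ | ¬ Hit P (eval c ((A * X l + B) * G))} := by
  classical
  obtain ⟨e, N, hN, K, hK⟩ := exists_elim hA hB G
  have hN0 : aeval x N ≠ 0 := by
    have h1 := congrArg (aeval x) hK
    rw [map_sub, map_mul, map_pow, map_mul, hx2, zero_mul, sub_eq_zero] at h1
    rw [← h1]
    exact mul_ne_zero (pow_ne_zero _ hx1) hx3
  have hR0 : A * N ≠ 0 := by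
    intro h
    have h1 := congrArg (aeval x) h
    rw [map_mul, map_zero] at h1
    exact mul_ne_zero hx1 hN0 h1
  obtain ⟨m, hm⟩ := MvPolynomial.ne_zero_iff.1 hR0
  set w : ℕ → ℝ := fun p => if p ∈ P then 1 / (4 * (p : ℝ)) else 0 with hw
  have hns : ¬ Summable (fun p : ℕ => if p.Prime then w p else 0) := by
    intro hsum
    have h1 := hsum.mul_left 4
    have h2 : Set.indicator {p : ℕ | p.Prime ∧ p ∈ P} (fun p : ℕ => 1 / (p : ℝ)) =
        fun p : ℕ => 4 * (if p.Prime then w p else 0) := by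
      funext p
      by_cases h : p.Prime
      · by_cases h' : p ∈ P
        · have h3 : (p : ℝ) ≠ 0 := by exact_mod_cast h.ne_zero
          rw [Set.indicator_of_mem (show p ∈ {p : ℕ | p.Prime ∧ p ∈ P} from ⟨h, h'⟩), if_pos h, hw]
          simp only [h', if_true]
          field_simp
        · rw [Set.indicator_of_notMem (show p ∉ {p : ℕ | p.Prime ∧ p ∈ P} from fun h3 => h' h3.2),
            if_pos h, hw]
          simp [h']
      · rw [Set.indicator_of_notMem (show p ∉ {p : ℕ | p.Prime ∧ p ∈ P} from fun h3 => h h3.1),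
          if_neg h, mul_zero]
    apply hP
    rw [h2]
    exact h1
  have h := t_CRIT ι (fun p => p ^ 2) (fun p hp => Nat.pos_of_ne_zero (by
      have := hp.pos
      positivity)) (fun p p' hp hp' hne =>
      Nat.Coprime.pow 2 2 ((Nat.coprime_primes hp hp').mpr hne))
    (fun p => if p ∈ P then Om l A B (A * N) p else ∅)
    ((coeff m (A * N)).natAbs + 2 * (A * N).totalDegree) w
    (fun p => by
      simp only [hw]
      split_ifs <;> positivity) hns (fun p hp hlp => by
      by_cases hpP : p ∈ P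
      · simp only [hw, hpP, if_true]
        have hne : (A * N).map (Int.castRingHom (ZMod p)) ≠ 0 := by
          intro h
          have h1 := congrArg (coeff m) h
          rw [MvPolynomial.coeff_map, coeff_zero] at h1
          have h2 : (p : ℤ) ∣ coeff m (A * N) := (ZMod.intCast_zmod_eq_zero_iff_dvd _ _).1 h1
          have h3 := Nat.le_of_dvd (Int.natAbs_pos.2 hm) (Int.natCast_dvd.1 h2)
          omega
        have h1 := card_Om hA hB hN hp
        have h2 := half_nonzero hp hne (by omega)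
        have h3 := exac_card hp.two_le
        set E : Set (ι → ZMod (p ^ 2)) := {c | ¬ p ∣ (aeval c (A * N)).val} with hE
        have hp0 : (0 : ℝ) < p := by exact_mod_cast hp.pos
        have h4 : ((exac p).ncard : ℝ) * (E.ncard : ℝ) ≤
            (p : ℝ) ^ 2 * ((Om l A B (A * N) p).ncard : ℝ) := by exact_mod_cast h1
        have h5 : ((p : ℝ) / 2) * ((p : ℝ) ^ (2 * Fintype.card ι) / 2) ≤
            ((exac p).ncard : ℝ) * (E.ncard : ℝ) := by
          apply mul_le_mul h3 h2 (by positivity) (by positivity)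
        have h6 : (((p ^ 2 : ℕ) : ℝ) ^ Fintype.card ι) = (p : ℝ) ^ (2 * Fintype.card ι) := by
          push_cast
          rw [pow_mul]
        rw [h6]
        have h7 := h5.trans h4
        have h8 : 1 / (4 * (p : ℝ)) * (p : ℝ) ^ (2 * Fintype.card ι) * (p : ℝ) ^ 2 ≤
            ((Om l A B (A * N) p).ncard : ℝ) * (p : ℝ) ^ 2 := by
          refine le_trans (le_of_eq ?_) (h7.trans (le_of_eq (mul_comm _ _)))
          field_simp
          norm_num
        exact le_of_mul_le_mul_right h8 (by positivity)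
      · simp [hw, hpP])
  refine Clo.mono (fun c hc => ?_) h
  intro p hp hlp hmem
  apply hc
  by_cases hpP : p ∈ P
  · rw [if_pos hpP] at hmem
    obtain ⟨h1, h2⟩ := hmem
    rw [aeval_int] at h1 h2
    obtain ⟨h3, h4⟩ := h1
    have h3' := (one_dvd p hp.one_lt.le _).1 h3
    have h4' := (one_val_ne p hp.one_lt.le _).1 h4
    rw [one_dvd p hp.one_lt.le] at h2
    refine ⟨p, hpP, hp, ?_, ?_⟩
    · rw [map_mul]
      exact h3'.mul_right _
    · rw [map_mul]
      intro h5
      have hpp : Prime (p : ℤ) := Nat.prime_iff_prime_int.1 hp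
      have hG : ¬ (p : ℤ) ∣ eval c G := by
        intro h6
        apply h2
        have h7 := congrArg (eval c) hK
        rw [map_sub, map_mul, map_pow, map_mul] at h7
        have h8 : (p : ℤ) ∣ eval c N := by
          have h9 : eval c N = eval c A ^ e * eval c G - eval c (A * X l + B) * eval c K := by
            rw [← h7]
            ring
          rw [h9]
          exact dvd_sub (h6.mul_left _) (h3'.mul_right _)
        rw [map_mul]
        exact h8.mul_left _
      apply h4'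
      have hco : IsCoprime ((p : ℤ) ^ 2) (eval c G) :=
        IsCoprime.pow_left ((Prime.coprime_iff_not_dvd hpp).2 hG)
      exact hco.dvd_of_dvd_mul_right h5
  · rw [if_neg hpP] at hmem
    exact absurd hmem (Set.notMem_empty _)

/-- The polynomial `F` has over `ℚ` a factor `A x_l + B` of degree one in some variable `x_l` (`A`, `B`
do not contain `x_l`), and the other factor does not vanish identically on the hypersurface
`x_l = - B / A`. -/
def SimpleFactor (F : MvPolynomial ι ℤ) : Prop :=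
  ∃ (l : ι) (A B G : MvPolynomial ι ℚ), l ∉ A.vars ∧ l ∉ B.vars ∧
    F.map (Int.castRingHom ℚ) = (A * X l + B) * G ∧
    ∃ x : ι → ℚ, eval x A ≠ 0 ∧ eval x (A * X l + B) = 0 ∧ eval x G ≠ 0

/-- common denominator of the coefficients -/
lemma clear (A : MvPolynomial ι ℚ) : ∃ (d : ℤ) (A' : MvPolynomial ι ℤ), d ≠ 0 ∧
    A'.map (Int.castRingHom ℚ) = C (d : ℚ) * A := by
  classical
  induction A using MvPolynomial.induction_on with
  | C a =>
    refine ⟨a.den, C a.num, by exact_mod_cast a.den_ne_zero, ?_⟩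
    rw [map_C, ← C_mul]
    congr 1
    change ((a.num : ℤ) : ℚ) = _
    push_cast
    rw [Rat.den_mul_eq_num]
  | add p q hp hq =>
    obtain ⟨d, A', h1, h2⟩ := hp
    obtain ⟨d', B', h1', h2'⟩ := hq
    refine ⟨d * d', C d' * A' + C d * B', mul_ne_zero h1 h1', ?_⟩
    rw [map_add, map_mul, map_mul, h2, h2', map_C, map_C]
    change C ((d' : ℤ) : ℚ) * _ + C ((d : ℤ) : ℚ) * _ = _
    push_cast
    rw [C_mul]
    ring
  | mul_X p i hp =>
    obtain ⟨d, A', h1, h2⟩ := hp
    refine ⟨d, A' * X i, h1, ?_⟩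
    rw [map_mul, h2, map_X]
    ring

lemma vars_clear {l : ι} {A : MvPolynomial ι ℚ} {d : ℤ} {A' : MvPolynomial ι ℤ}
    (h : A'.map (Int.castRingHom ℚ) = C (d : ℚ) * A) (hl : l ∉ A.vars) : l ∉ A'.vars := by
  classical
  intro h1
  apply hl
  have h2 : l ∈ (A'.map (Int.castRingHom ℚ)).vars := by
    rw [vars_map_of_injective _ (RingHom.injective_int _)]
    exact h1
  rw [h] at h2
  have h3 := vars_mul _ _ h2
  rw [vars_C, Finset.empty_union] at h3
  exact h3

theorem pro_hit_simple {P : Set ℕ} (hP : Big P) {F : MvPolynomial ι ℤ} (hF : SimpleFactor F) :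
    ProNull {c : ι → ℤ | ¬ Hit P (eval c F)} := by
  classical
  obtain ⟨l, A, B, G, hA, hB, hFG, x, hx1, hx2, hx3⟩ := hF
  obtain ⟨d₁, A₁, hd₁, e₁⟩ := clear A
  obtain ⟨d₂, B₂, hd₂, e₂⟩ := clear B
  obtain ⟨d₃, G₃, hd₃, e₃⟩ := clear G
  have hA' : l ∉ (C d₂ * A₁ : MvPolynomial ι ℤ).vars := by
    rw [free_mem]
    exact Subalgebra.mul_mem _ ((supported ℤ ({l}ᶜ : Set ι)).algebraMap_mem d₂)
      (free_mem.1 (vars_clear e₁ hA))
  have hB' : l ∉ (C d₁ * B₂ : MvPolynomial ι ℤ).vars := by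
    rw [free_mem]
    exact Subalgebra.mul_mem _ ((supported ℤ ({l}ᶜ : Set ι)).algebraMap_mem d₁)
      (free_mem.1 (vars_clear e₂ hB))
  have hq1 : (d₁ : ℚ) ≠ 0 := Int.cast_ne_zero.2 hd₁
  have hq2 : (d₂ : ℚ) ≠ 0 := Int.cast_ne_zero.2 hd₂
  have hq3 : (d₃ : ℚ) ≠ 0 := Int.cast_ne_zero.2 hd₃
  have key : ∀ M : MvPolynomial ι ℤ, aeval x M = eval x (M.map (Int.castRingHom ℚ)) := by
    intro M
    rw [MvPolynomial.eval_map, aeval_def]
    rfl
  have f1 : (C d₂ * A₁ : MvPolynomial ι ℤ).map (Int.castRingHom ℚ) = C ((d₁ * d₂ : ℤ) : ℚ) * A := by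
    rw [map_mul, map_C, e₁]
    change C ((d₂ : ℤ) : ℚ) * _ = _
    push_cast
    rw [C_mul]
    ring
  have f2 : (C d₁ * B₂ : MvPolynomial ι ℤ).map (Int.castRingHom ℚ) = C ((d₁ * d₂ : ℤ) : ℚ) * B := by
    rw [map_mul, map_C, e₂]
    change C ((d₁ : ℤ) : ℚ) * _ = _
    push_cast
    rw [C_mul]
    ring
  have f3 : ((C d₂ * A₁) * X l + C d₁ * B₂ : MvPolynomial ι ℤ).map (Int.castRingHom ℚ) =
      C ((d₁ * d₂ : ℤ) : ℚ) * (A * X l + B) := by
    rw [map_add, map_mul, f1, f2, map_X]
    ring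
  have f4 : C (d₁ * d₂ * d₃) * F = ((C d₂ * A₁) * X l + C d₁ * B₂) * G₃ := by
    apply map_injective _ (RingHom.injective_int (Int.castRingHom ℚ))
    rw [map_mul (MvPolynomial.map (Int.castRingHom ℚ)) (C (d₁ * d₂ * d₃)) F,
      map_mul (MvPolynomial.map (Int.castRingHom ℚ)) (_ * X l + _) G₃, f3, e₃, hFG, map_C]
    change C ((d₁ * d₂ * d₃ : ℤ) : ℚ) * _ = _
    push_cast
    rw [C_mul, C_mul]
    ring
  have h := pro_hit_fac (hP.above (d₁ * d₂ * d₃).natAbs) (G := G₃) hA' hB' (x := x)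
    (by
      rw [key, f1, map_mul, eval_C]
      refine mul_ne_zero ?_ hx1
      push_cast
      exact mul_ne_zero hq1 hq2)
    (by
      rw [key, f3, map_mul, hx2, mul_zero])
    (by
      rw [key, e₃, map_mul, eval_C]
      exact mul_ne_zero hq3 hx3)
  refine Clo.mono ?_ h
  intro c hc hhit
  apply hc
  obtain ⟨p, ⟨hpP, hpd⟩, hp, h1, h2⟩ := hhit
  rw [← f4, map_mul, eval_C] at h1 h2
  have hpp : Prime (p : ℤ) := Nat.prime_iff_prime_int.1 hp
  have hD : ¬ (p : ℤ) ∣ d₁ * d₂ * d₃ := by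
    intro h3
    have h4 := Nat.le_of_dvd (Int.natAbs_pos.2 (mul_ne_zero (mul_ne_zero hd₁ hd₂) hd₃))
      (Int.natCast_dvd.1 h3)
    omega
  refine ⟨p, hpP, hp, ?_, fun h3 => h2 (h3.mul_left _)⟩
  rcases hpp.dvd_or_dvd h1 with h3 | h3
  · exact absurd h3 hD
  · exact h3

/-- finitely many sets of primes -/
theorem pro_hits_simple {PP : Set (Set ℕ)} (hf : PP.Finite) (hP : ∀ P ∈ PP, Big P)
    {F : MvPolynomial ι ℤ} (hF : SimpleFactor F) :
    ProNull {c : ι → ℤ | ¬ ∀ P ∈ PP, Hit P (eval c F)} := by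
  classical
  have : Nonempty ι := ⟨hF.choose⟩
  induction PP, hf using Set.Finite.induction_on with
  | empty =>
    refine Clo.mono (B := ∅) ?_ (Clo.finite Set.finite_empty)
    intro c hc
    exact absurd (fun P hP => absurd hP (Set.notMem_empty _)) hc
  | @insert P QQ _ _ ih =>
    refine Clo.mono ?_ (Clo.union (pro_hit_simple (hP P (Set.mem_insert _ _)) hF)
      (ih fun Q hQ => hP Q (Set.mem_insert_of_mem _ hQ)))
    intro c hc
    by_cases h1 : Hit P (eval c F)
    · right
      intro h2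
      apply hc
      intro Q hQ
      rcases Set.mem_insert_iff.1 hQ with rfl | hQ
      · exact h1
      · exact h2 Q hQ
    · left
      exact h1

end

end Pool.Agent.P8H32.CV
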