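import Pool.Agent.P8H32.CV.Hit
import Pool.Agent.N53.CF.All
import Pool.Agent.N18.KM.Base
import Pool.Agent.N676.OR.Diag

/-!
# Values of polynomials at the convergents of normal continued fractions (helper32)

Let countably many properties `good D` of integers be given, such that `good D a` is true for all
integers `a` which are divisible exactly once by a prime of each of finitely many big sets. Then for
every continued fraction normal number there is one set `E` of indices of density zero such that
`good D (F (p_n, q_n))` is true for all `D`, all polynomials `F` with a simple factor of degree one in one of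
the variables, and all but finitely many `n ∉ E`.
-/

set_option autoImplicit false

namespace Pool.Agent.P8H32.CV

open MvPolynomial Filter Topology MeasureTheory
open Pool.Agent.N24.RW Pool.Agent.N676.OR
open Pool.Agent.N53.CF (CFNormal cvg)
open Pool.Agent.W811.Stu (gauss dig)

/-- the exceptional set of one property and one polynomial is pronull -/
theorem pro_good {ι : Type} [Fintype ι] {good : ℤ → Prop}
    (h : ∃ PP : Set (Set ℕ), PP.Finite ∧ (∀ P ∈ PP, Big P) ∧
      ∀ a : ℤ, (∀ P ∈ PP, Hit P a) → good a) {F : MvPolynomial ι ℤ} (hF : SimpleFactor F) :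
    ProNull {c : ι → ℤ | ¬ good (eval c F)} := by
  obtain ⟨PP, h1, h2, h3⟩ := h
  refine Clo.mono ?_ (pro_hits_simple h1 h2 hF)
  intro c hc hall
  exact hc (h3 _ hall)

theorem conv_principle {𝔇 : Type} [Countable 𝔇] (good : 𝔇 → ℤ → Prop)
    (h : ∀ D, ∃ PP : Set (Set ℕ), PP.Finite ∧ (∀ P ∈ PP, Big P) ∧
      ∀ a : ℤ, (∀ P ∈ PP, Hit P a) → good D a) (α : ℝ) (hα : CFNormal α) :
    ∃ E : Set ℕ, DensityZero E ∧ ∀ F : MvPolynomial (Fin 2) ℤ, SimpleFactor F → ∀ D,
      {n : ℕ | n ∉ E ∧ ¬ good D (eval (cvg (dig α) n) F)}.Finite := by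
  classical
  have := Pool.Agent.N618.RO.countable_mv 2
  obtain ⟨E, e1, e2⟩ := Pool.Agent.N18.KM.one_set
    (κ := {F : MvPolynomial (Fin 2) ℤ // SimpleFactor F} × 𝔇)
    (cvg (dig α)) (fun x => {c : Fin 2 → ℤ | ¬ good x.2 (eval c x.1.1)})
    (fun x => Pool.Agent.N53.CF.main _ (pro_good (h x.2) x.1.2) α hα)
  exact ⟨E, e1, fun F hF D => e2 (⟨F, hF⟩, D)⟩

end Pool.Agent.P8H32.CV
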